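import Pool.Agent.N767.MS.EXPL

/-!
Project MS (helper912), MS1 (helper767): exponential sums over balls, the theorem `S_EXP2`.
-/

set_option autoImplicit false

namespace Pool.Agent.N767.MS

open Finset
open Pool.Agent.H376R2.MR (ch)
open Pool.Agent.W78.GA
open Pool.Agent.N912.MS
open Pool.Agent.W327.GA (lb pc)

lemma cg_eq_chi (k l : ℤ) (z : Gi) : cg k l z = chi (k, l) z := by
  unfold cg cc chi ch
  rw [show pc k (tc z) = ps k z from rfl]
  congr 2
  have h1 : Real.log (nm z : ℝ) = 2 * Real.log ‖tc z‖ := by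
    rw [nm_eq_norm_sq hDi, Real.log_pow]
    push_cast
    ring
  simp only [h1]
  push_cast
  ring

lemma lb_eq_ball (X : ℝ) : lb 0 1 1 0 X = ball 0 1 X := by
  unfold lb
  exact filter_lat_one X

/-- symmetry -/
lemma sum_conj (k l : ℤ) (X : ℝ) :
    ∑ z ∈ ball 0 1 X, chi (k, l) z = ∑ z ∈ ball 0 1 X, chi (-k, l) z := by
  refine sum_nbij' (fun z => star z) (fun z => star z) ?_ ?_ ?_ ?_ ?_
  · intro z hz
    rw [mem_ball hDi] at hz ⊢
    rw [nm_star]
    exact hz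
  · intro z hz
    rw [mem_ball hDi] at hz ⊢
    rw [nm_star]
    exact hz
  · intro z _
    exact star_star z
  · intro z _
    exact star_star z
  · intro z hz
    rw [mem_ball hDi] at hz
    have hz0 : z ≠ 0 := (one_le_nm hDi).1 hz.1
    unfold chi
    simp only
    rw [ps_star hDi hz0, nm_star, neg_neg]

/-- the large frequencies -/
theorem large : ∀ M : ℕ, ∃ η : ℝ, 0 < η ∧ η ≤ 1 / 2 ∧ ∃ C : ℝ, 0 < C ∧ ∀ (X : ℝ) (k l : ℤ),
    1 ≤ X → 0 < |(k : ℝ)| + |(l : ℝ)| → |(k : ℝ)| + |(l : ℝ)| ≤ X ^ M →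
    ‖∑ z ∈ ball 0 1 X, chi (k, l) z‖ ≤ C * (X ^ (1 - η) + X / (|(k : ℝ)| + |(l : ℝ)|)) := by
  intro M
  obtain ⟨η, hη, hη1, C, hC, h⟩ := large_lat (t := 0) (c := 1) hDi (d := 1) le_rfl 0 M
  refine ⟨η, hη, hη1, C, hC, ?_⟩
  have main : ∀ (X : ℝ) (k l : ℤ), k * l ≤ 0 →
      1 ≤ X → 0 < |(k : ℝ)| + |(l : ℝ)| → |(k : ℝ)| + |(l : ℝ)| ≤ X ^ M →
      ‖∑ z ∈ ball 0 1 X, chi (k, l) z‖ ≤ C * (X ^ (1 - η) + X / (|(k : ℝ)| + |(l : ℝ)|)) := by
    intro X k l hkl hX h1 h2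
    have h3 := h X k l hkl hX h1 h2
    rw [lb_eq_ball] at h3
    refine le_trans (le_of_eq ?_) h3
    congr 1
    exact sum_congr rfl fun z _ => (cg_eq_chi k l z).symm
  intro X k l hX h1 h2
  rcases le_total (k * l) 0 with hkl | hkl
  · exact main X k l hkl hX h1 h2
  · rw [sum_conj]
    have h3 : |((-k : ℤ) : ℝ)| = |(k : ℝ)| := by
      push_cast
      exact abs_neg _
    have := main X (-k) l (by linarith [neg_mul k l]) hX (by rw [h3]; exact h1)
      (by rw [h3]; exact h2)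
    rwa [h3] at this

lemma abs_le_of_nrm {κ : ℤ × ℤ} {X : ℝ} {M : ℕ} (hX : 1 ≤ X) (h : (nrm κ : ℝ) ≤ X ^ M) :
    |(κ.1 : ℝ)| ≤ X ^ M ∧ |(κ.2 : ℝ)| ≤ X ^ M := by
  have h0 : (1 : ℝ) ≤ X ^ M := one_le_pow₀ hX
  unfold nrm at h
  push_cast at h
  have h1 := (le_max_left _ _).trans h
  have h2 := (le_max_right _ _).trans h
  have key : ∀ x : ℝ, x ^ 2 ≤ X ^ M → |x| ≤ X ^ M := by
    intro x hx
    apply abs_le_of_sq_le_sq _ (by linarith)
    nlinarith
  exact ⟨key _ h1, key _ h2⟩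

/-- **MS1**: exponential sums over balls. -/
theorem exp2 : S_EXP2 := by
  intro M
  obtain ⟨η₁, hη₁, hη₁', C₁, hC₁, hlarge⟩ := large (M + 1)
  obtain ⟨η₂, hη₂, hη₂', C₂, hC₂, hsmall⟩ := small_ne M
  obtain ⟨C₃, hC₃, hzero⟩ := small_zero
  obtain ⟨C₄, hC₄, hcard⟩ := card_ball_le
  set η : ℝ := min η₁ (η₂ / 2) with hη
  have hη0 : 0 < η := by rw [hη]; positivity
  have hηa : η ≤ η₁ := min_le_left _ _
  have hηb : η ≤ η₂ / 2 := min_le_right _ _
  refine ⟨η, hη0, by linarith, 2 * C₁ + 2 * C₂ + 2 * C₃ + 2 * C₄ + 8, by positivity, ?_⟩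
  intro X κ hX hκ
  obtain ⟨k, l⟩ := κ
  obtain ⟨hk, hl⟩ := abs_le_of_nrm hX hκ
  simp only at hk hl
  have hX0 : 0 < X := by linarith
  set P : ℝ := X ^ (1 - η) with hP
  have hP1 : 1 ≤ P := Real.one_le_rpow hX (by linarith)
  have hl0 : 0 ≤ |(l : ℝ)| := abs_nonneg _
  have hk0 : 0 ≤ |(k : ℝ)| := abs_nonneg _
  -- the trivial bounds
  have htriv : ‖∑ z ∈ ball 0 1 X, chi (k, l) z‖ ≤ C₄ * X := by
    calc ‖∑ z ∈ ball 0 1 X, chi (k, l) z‖ ≤ ∑ z ∈ ball 0 1 X, (1 : ℝ) :=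
          norm_sum_le_of_le _ fun z _ => chi_le _ z
      _ = ((ball 0 1 X).card : ℝ) := by simp
      _ ≤ C₄ * X := hcard X hX
  have hmain : ‖(Real.pi : ℂ) * (X : ℂ) ^ (1 - l * Complex.I) / (1 - l * Complex.I)‖ ≤ 4 * X ∧
      |(l : ℝ)| * ‖(Real.pi : ℂ) * (X : ℂ) ^ (1 - l * Complex.I) / (1 - l * Complex.I)‖ ≤
        4 * X := by
    obtain ⟨h1, h2⟩ := one_le_norm_one_sub l
    have h3 : 0 < ‖(1 - (l : ℂ) * Complex.I)‖ := by linarith
    have h4 : ‖(Real.pi : ℂ) * (X : ℂ) ^ (1 - l * Complex.I) / (1 - l * Complex.I)‖ =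
        Real.pi * X / ‖(1 - (l : ℂ) * Complex.I)‖ := by
      rw [cpow_eq l hX0, norm_div, norm_mul, norm_mul, norm_fl, mul_one, Complex.norm_real,
        Complex.norm_real, Real.norm_of_nonneg Real.pi_pos.le, Real.norm_of_nonneg hX0.le]
    have h5 : Real.pi * X ≤ 4 * X := by
      have := Real.pi_lt_four
      nlinarith
    rw [h4]
    constructor
    · rw [div_le_iff₀ h3]
      nlinarith
    · rw [← mul_div_assoc, div_le_iff₀ h3]
      have : 0 ≤ Real.pi * X := by positivity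
      nlinarith
  set W : ℂ := (Real.pi : ℂ) * (X : ℂ) ^ (1 - l * Complex.I) / (1 - l * Complex.I) with hW
  set Sg : ℂ := ∑ z ∈ ball 0 1 X, chi (k, l) z with hSg
  have hCP : ∀ a : ℝ, 0 ≤ a → 0 ≤ a * P := fun a ha => mul_nonneg ha (by linarith)
  simp only
  -- small `X`
  rcases lt_or_ge X 2 with hX2 | hX2
  · have h1 : X ≤ 2 * P := by linarith
    have h2 : C₄ * X ≤ C₄ * (2 * P) := by gcongr
    constructor
    · intro _
      have := hCP (2 * C₁ + 2 * C₂ + 2 * C₃ + 8) (by positivity)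
      linarith
    · intro _
      have := hCP (2 * C₁ + 2 * C₂ + 2 * C₃) (by positivity)
      calc ‖Sg - W‖ ≤ ‖Sg‖ + ‖W‖ := norm_sub_le _ _
        _ ≤ C₄ * X + 4 * X := by linarith [hmain.1]
        _ ≤ _ := by linarith
  -- the thresholds
  have hXX : X * X ^ (-(η₂ / 2)) ≤ P := by
    rw [hP, ← Real.rpow_one_add' hX0.le (by linarith)]
    exact Real.rpow_le_rpow_of_exponent_le hX (by linarith)
  rcases le_or_gt |(l : ℝ)| (X ^ (η₂ / 2)) with hls | hls
  · have hx1 : 1 ≤ X ^ (η₂ / 2) := Real.one_le_rpow hX (by linarith)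
    constructor
    · intro hk'
      have h1 := hsmall X k l hX hk' hk
      rw [← hSg] at h1
      have h2 : (1 + |(l : ℝ)|) * X ^ (1 - η₂) ≤ 2 * P := by
        calc (1 + |(l : ℝ)|) * X ^ (1 - η₂) ≤ (2 * X ^ (η₂ / 2)) * X ^ (1 - η₂) := by
              gcongr
              linarith
          _ = 2 * X ^ (η₂ / 2 + (1 - η₂)) := by rw [Real.rpow_add hX0]; ring
          _ ≤ 2 * P := by
              rw [hP]
              gcongr 2 * ?_
              exact Real.rpow_le_rpow_of_exponent_le hX (by linarith)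
      have h3 : C₂ * ((1 + |(l : ℝ)|) * X ^ (1 - η₂)) ≤ C₂ * (2 * P) := by gcongr
      have := hCP (2 * C₁ + 2 * C₃ + 2 * C₄ + 8) (by positivity)
      rw [mul_assoc] at h1
      linarith
    · intro hk'
      subst hk'
      have h1 := hzero X l hX
      rw [← hSg, ← hW] at h1
      have h2 : (1 + |(l : ℝ)|) * Real.sqrt X ≤ 2 * P := by
        calc (1 + |(l : ℝ)|) * Real.sqrt X ≤ (2 * X ^ (η₂ / 2)) * X ^ (1 / 2 : ℝ) := by
              rw [← Real.sqrt_eq_rpow]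
              gcongr
              linarith
          _ = 2 * X ^ (η₂ / 2 + 1 / 2) := by rw [Real.rpow_add hX0]; ring
          _ ≤ 2 * P := by
              rw [hP]
              gcongr 2 * ?_
              exact Real.rpow_le_rpow_of_exponent_le hX (by linarith)
      have h3 : C₃ * ((1 + |(l : ℝ)|) * Real.sqrt X) ≤ C₃ * (2 * P) := by gcongr
      have := hCP (2 * C₁ + 2 * C₂ + 2 * C₄ + 8) (by positivity)
      rw [mul_assoc] at h1
      linarith
  · -- large `l`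
    have hx0 : 0 < X ^ (η₂ / 2) := Real.rpow_pos_of_pos hX0 _
    have hlpos : 0 < |(l : ℝ)| := by linarith
    have hN : |(k : ℝ)| + |(l : ℝ)| ≤ X ^ (M + 1) := by
      calc |(k : ℝ)| + |(l : ℝ)| ≤ X ^ M * 2 := by linarith
        _ ≤ X ^ M * X := by gcongr
        _ = X ^ (M + 1) := (pow_succ X M).symm
    have h1 := hlarge X k l hX (by linarith) hN
    rw [← hSg] at h1
    have hXl : ∀ a : ℝ, |(l : ℝ)| ≤ a → X / a ≤ P := by
      intro a ha
      calc X / a ≤ X / X ^ (η₂ / 2) := by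
            apply div_le_div_of_nonneg_left hX0.le hx0
            linarith
        _ = X * X ^ (-(η₂ / 2)) := by rw [Real.rpow_neg hX0.le, div_eq_mul_inv]
        _ ≤ P := hXX
    have h2 : ‖Sg‖ ≤ C₁ * (P + P) := by
      refine h1.trans ?_
      gcongr
      · rw [hP]
        exact Real.rpow_le_rpow_of_exponent_le hX (by linarith)
      · exact hXl _ (by linarith)
    constructor
    · intro _
      have := hCP (2 * C₂ + 2 * C₃ + 2 * C₄ + 8) (by positivity)
      linarith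
    · intro _
      have h3 : ‖W‖ ≤ 4 * P := by
        have h4 : ‖W‖ ≤ 4 * (X / |(l : ℝ)|) := by
          rw [← mul_div_assoc, le_div_iff₀ hlpos, mul_comm]
          exact hmain.2
        have := hXl _ le_rfl
        linarith
      have := hCP (2 * C₂ + 2 * C₃ + 2 * C₄ + 4) (by positivity)
      have h5 := norm_sub_le Sg W
      linarith

end Pool.Agent.N767.MS
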