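import Pool.Agent.N767.MS.EXPS

/-!
Project MS (helper912), MS1, part two (helper767): exponential sums over balls with frequency
`(k, l)`, `k l ≤ 0`, by van der Corput (port of `W327/GA/AngB`, `AngE`, `Ang1`). The phase is
`k arg z - l log N z`; if `k l ≤ 0` all its derivatives along the lines of the cells
have the same sign pattern as those of the angle.
-/

set_option autoImplicit false

namespace Pool.Agent.N767.MS

open Finset Complex
open Pool.Agent.H469R2.NK (e norm_e)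
open Pool.Agent.W540.GM (Good unit_zpow_eq phi hasDerivAt_phi im_pow_bounds cell_re abs_ediv_le)
open Pool.Agent.W327.GA (pc norm_pc_le pc_line tc_add_natMul ps_eq_pc Qn one_le_Qn norm_tc_le
  cell_good cell_bound lb mem_lb lb_eq_empty coord_le card_lb_le cl lconv_cl sum_lb_eq)
open Pool.Agent.W78.GA

/-- the real part of the logarithm and its derivatives; compare `W540.GM.phi` -/
noncomputable def psi (w : ℂ) (J : ℝ) (m : ℕ) (x : ℝ) : ℝ :=
  match m with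
  | 0 => (Complex.log (w + ((x - J : ℝ) : ℂ))).re
  | m + 1 => ((-1 : ℂ) ^ m * (m.factorial : ℂ) * ((w + ((x - J : ℝ) : ℂ))⁻¹) ^ (m + 1)).re

lemma hasDerivAt_re' {g : ℝ → ℂ} {g' : ℂ} {x : ℝ} (h : HasDerivAt g g' x) :
    HasDerivAt (fun t => (g t).re) g'.re x := by
  have := Complex.reCLM.hasFDerivAt.comp_hasDerivAt x h
  exact this

lemma hasDerivAt_psi (w : ℂ) (J : ℝ) (m : ℕ) (x : ℝ)
    (h : (w + ((x - J : ℝ) : ℂ)) ∈ Complex.slitPlane) :
    HasDerivAt (psi w J m) (psi w J (m + 1) x) x := by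
  have hd : HasDerivAt (fun y : ℝ => w + ((y - J : ℝ) : ℂ)) 1 x := by
    have h1 : HasDerivAt (fun y : ℝ => ((y - J : ℝ) : ℂ)) ((1 : ℝ) : ℂ) x :=
      ((hasDerivAt_id x).sub_const J).ofReal_comp
    have := h1.const_add w
    simpa using this
  have hne : (w + ((x - J : ℝ) : ℂ)) ≠ 0 := Complex.slitPlane_ne_zero h
  cases m with
  | zero =>
    have h1 := hd.clog_real h
    have h2 := hasDerivAt_re' h1
    have e : psi w J 1 x = ((1 : ℂ) / (w + ((x - J : ℝ) : ℂ))).re := by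
      simp [psi]
    rw [e]
    exact h2
  | succ m =>
    have h1 := ((hd.fun_inv hne).fun_pow (m + 1)).const_mul ((-1 : ℂ) ^ m * (m.factorial : ℂ))
    have h2 := hasDerivAt_re' h1
    have e : psi w J (m + 1 + 1) x = ((-1 : ℂ) ^ m * (m.factorial : ℂ) *
        (((m + 1 : ℕ) : ℂ) * ((w + ((x - J : ℝ) : ℂ))⁻¹) ^ (m + 1 - 1) *
          (-1 / (w + ((x - J : ℝ) : ℂ)) ^ 2))).re := by
      simp only [psi]
      congr 1
      rw [Nat.factorial_succ, Nat.add_sub_cancel, pow_succ (-1 : ℂ) m]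
      push_cast
      rw [neg_div, one_div, ← inv_pow]
      ring
    rw [e]
    exact h2

/-- the combination of the two -/
noncomputable def phs (α β : ℝ) (w : ℂ) (J : ℝ) (m : ℕ) (x : ℝ) : ℝ :=
  α * phi w J m x + 2 * β * psi w J m x

lemma hasDerivAt_phs (α β : ℝ) (w : ℂ) (J : ℝ) (m : ℕ) (x : ℝ)
    (h : (w + ((x - J : ℝ) : ℂ)) ∈ Complex.slitPlane) :
    HasDerivAt (phs α β w J m) (phs α β w J (m + 1) x) x :=
  ((hasDerivAt_phi w J m x h).const_mul α).add ((hasDerivAt_psi w J m x h).const_mul (2 * β))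

/-- the character `(w/|w|)^k |w|^(-2 i l)` -/
noncomputable def cc (k l : ℤ) (w : ℂ) : ℂ :=
  pc k w * Complex.exp (((-(l * (2 * Real.log ‖w‖)) : ℝ) : ℂ) * I)

lemma norm_cc_le (k l : ℤ) (w : ℂ) : ‖cc k l w‖ ≤ 1 := by
  unfold cc
  rw [norm_mul, Complex.norm_exp_ofReal_mul_I, mul_one]
  exact norm_pc_le k w

/-- the line, with the sign `σ` -/
lemma cc_line {u z₀ : ℂ} (hu' : u ≠ 0) (n : ℕ) (hn : (z₀ / u + n : ℂ) ≠ 0) (k l : ℤ) :
    cc k l (z₀ + (n : ℂ) * u) = cc k l u *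
      e ((1 / (2 * Real.pi)) * (k * (z₀ / u + n : ℂ).arg - 2 * l * Real.log ‖z₀ / u + n‖)) := by
  have h1 : z₀ + (n : ℂ) * u = u * (z₀ / u + n) := by
    field_simp
  have hlog : Real.log ‖z₀ + (n : ℂ) * u‖ = Real.log ‖u‖ + Real.log ‖z₀ / u + n‖ := by
    rw [h1, norm_mul, Real.log_mul (norm_ne_zero_iff.2 hu') (norm_ne_zero_iff.2 hn)]
  unfold cc
  rw [pc_line hu' n hn, hlog]
  have hpi : (Real.pi : ℂ) ≠ 0 := by exact_mod_cast Real.pi_ne_zero
  unfold e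
  rw [mul_assoc (pc k u), mul_assoc (pc k u), ← Complex.exp_add, ← Complex.exp_add]
  congr 2
  push_cast
  field_simp
  ring

lemma line_bound2 (M : ℕ) {x₀ τ₀ : ℝ} (hx₀ : 0 < x₀) (hx₁ : x₀ ≤ 1) (hτ₀ : 0 < τ₀) :
    ∃ η : ℝ, 0 < η ∧ η ≤ 1 ∧ ∃ C : ℝ, 0 < C ∧ ∀ (J L : ℕ) (z₀ u : ℂ) (k l : ℤ),
      1 ≤ J → L ≤ J → u ≠ 0 → k * l ≤ 0 → Good (M + 4) x₀ τ₀ J z₀ u →
      7 ≤ (|(k : ℝ)| + |(l : ℝ)|) → (|(k : ℝ)| + |(l : ℝ)|) ≤ (J : ℝ) ^ M →
      ‖∑ n ∈ range L, cc k l (z₀ + (n : ℂ) * u)‖ ≤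
        C * ((J : ℝ) ^ (1 - η) + J / (|(k : ℝ)| + |(l : ℝ)|)) := by
  obtain ⟨η, hη, hη1, C, hC, hmain⟩ := Pool.Agent.H221R2.FB.vdc_gen M (x₀ ^ (M + 4) * τ₀)
    (2 * ((M + 4).factorial : ℝ)) (by positivity)
  refine ⟨η, hη, hη1, C * 7, by positivity, ?_⟩
  intro J L z₀ u k l hJ hLJ hu hkl hgood hk7 hkM
  have hJ0 : (0 : ℝ) < J := by exact_mod_cast hJ
  have hJC : (J : ℂ) ≠ 0 := by exact_mod_cast hJ0.ne'
  have hu' : u ≠ 0 := hu
  set w : ℂ := z₀ / u with hw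
  have hpi := Real.pi_pos
  -- the inverse of `w + t`
  have hinv : ∀ x : ℝ, x ∈ Set.Icc (J : ℝ) (3 * J) → ∃ ξ τ : ℝ,
      (w + ((x - J : ℝ) : ℂ))⁻¹ = (ξ * (1 + τ * I)) / J ∧ x₀ ≤ ξ ∧ ξ ≤ 1 ∧ τ₀ ≤ τ ∧
        ((M + 4 : ℕ) : ℝ) * τ ≤ 1 / 2 := by
    intro x hx
    obtain ⟨ξ, τ, h1, h2, h3, h4, h5⟩ := hgood (x - J) (by linarith [hx.1]) (by linarith [hx.2])
    refine ⟨ξ, τ, ?_, h2, h3, h4, h5⟩
    rw [← h1, hw]
    have h6 : z₀ / u + ((x - J : ℝ) : ℂ) =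
        (z₀ + ((x - J : ℝ) : ℂ) * u) / u := by
      field_simp
    rw [h6, inv_div]
    push_cast
    field_simp
  have hslit : ∀ x : ℝ, x ∈ Set.Icc (J : ℝ) (3 * J) →
      (w + ((x - J : ℝ) : ℂ)) ∈ Complex.slitPlane := by
    intro x hx
    obtain ⟨ξ, τ, h1, h2, h3, h4, h5⟩ := hinv x hx
    left
    have h6 : 0 < ((w + ((x - J : ℝ) : ℂ))⁻¹).re := by
      rw [h1]
      have : (((ξ : ℂ) * (1 + τ * I)) / J).re = ξ / J := by
        rw [show ((J : ℂ)) = ((J : ℝ) : ℂ) by push_cast; rfl, Complex.div_ofReal_re]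
        simp
      rw [this]
      exact div_pos (by linarith) hJ0
    rw [Complex.inv_re] at h6
    have h7 : (0 : ℝ) ≤ normSq (w + ((x - J : ℝ) : ℂ)) := normSq_nonneg _
    by_contra hcon
    push Not at hcon
    have := div_nonpos_of_nonpos_of_nonneg hcon h7
    linarith
  have hmem : ∀ n ∈ range L, ((J : ℝ) + n) ∈ Set.Icc (J : ℝ) (3 * J) := by
    intro n hn
    have h1 : (n : ℝ) ≤ J := by exact_mod_cast ((mem_range.1 hn).le.trans hLJ)
    have h2 : (0 : ℝ) ≤ n := Nat.cast_nonneg n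
    constructor <;> linarith
  set N : ℝ := |(k : ℝ)| + |(l : ℝ)| with hN
  have hN0 : 0 < N := by linarith
  obtain ⟨σ, hσ, hσk, hσl⟩ : ∃ σ : ℝ, |σ| = 1 ∧ (k : ℝ) = σ * |(k : ℝ)| ∧
      (l : ℝ) = -σ * |(l : ℝ)| := by
    rcases lt_trichotomy k 0 with h1 | h1 | h1
    · have h2 : 0 ≤ l := by
        by_contra hcon
        push Not at hcon
        have := mul_pos_of_neg_of_neg h1 hcon
        omega
      refine ⟨-1, by simp, ?_, ?_⟩
      · rw [abs_of_neg (by exact_mod_cast h1)]; ring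
      · rw [abs_of_nonneg (by exact_mod_cast h2)]; ring
    · subst h1
      rcases le_total l 0 with h2 | h2
      · refine ⟨1, by simp, by simp, ?_⟩
        rw [abs_of_nonpos (by exact_mod_cast h2)]; ring
      · refine ⟨-1, by simp, by simp, ?_⟩
        rw [abs_of_nonneg (by exact_mod_cast h2)]; ring
    · have h2 : l ≤ 0 := by
        by_contra hcon
        push Not at hcon
        have := mul_pos h1 hcon
        omega
      refine ⟨1, by simp, ?_, ?_⟩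
      · rw [abs_of_pos (by exact_mod_cast h1)]; ring
      · rw [abs_of_nonpos (by exact_mod_cast h2)]; ring
  set α : ℝ := |(k : ℝ)| / N with hα
  set β : ℝ := |(l : ℝ)| / N with hβ
  have hα0 : 0 ≤ α := by positivity
  have hβ0 : 0 ≤ β := by positivity
  have hαβ : α + β = 1 := by
    rw [hα, hβ, ← add_div, ← hN, div_self hN0.ne']
  set Ξ : ℝ := σ * N / (2 * Real.pi) with hΞ
  have hΞα : Ξ * α = (1 / (2 * Real.pi)) * k := by
    rw [hΞ, hα]
    conv_rhs => rw [hσk]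
    field_simp
  have hΞβ : Ξ * β = -(1 / (2 * Real.pi)) * l := by
    rw [hΞ, hβ]
    conv_rhs => rw [hσl]
    field_simp
  -- rewrite the sum
  have hsum : ∑ n ∈ range L, cc k l (z₀ + (n : ℂ) * u) =
      cc k l u * ∑ n ∈ range L, e (Ξ * phs α β w J 0 ((J : ℝ) + n)) := by
    rw [mul_sum]
    refine sum_congr rfl fun n hn => ?_
    have h1 : (w + (((J : ℝ) + n - J : ℝ) : ℂ)) = w + n := by
      push_cast; ring
    have h2 : w + (n : ℂ) ≠ 0 := by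
      rw [← h1]
      exact Complex.slitPlane_ne_zero (hslit _ (hmem n hn))
    rw [cc_line hu n h2]
    congr 2
    simp only [phs, phi, psi]
    rw [h1, Complex.log_im, Complex.log_re]
    calc 1 / (2 * Real.pi) * ((k : ℝ) * (w + n).arg - 2 * l * Real.log ‖w + n‖)
        = (1 / (2 * Real.pi) * k) * (w + n).arg +
          2 * (-(1 / (2 * Real.pi)) * l) * Real.log ‖w + n‖ := by ring
      _ = _ := by
          rw [← hΞα, ← hΞβ]
          ring
  rw [hsum, norm_mul]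
  have h7 : (2 * Real.pi) ≤ 7 := by linarith [Real.pi_lt_d2]
  have hξabs : |Ξ| = N / (2 * Real.pi) := by
    rw [hΞ, abs_div, abs_mul, hσ, one_mul, abs_of_pos hN0,
      abs_of_pos (by positivity : 0 < 2 * Real.pi)]
  have key := hmain J L J Ξ (phs α β w J) hJ le_rfl hLJ
    (by have : (L : ℝ) ≤ J := by exact_mod_cast hLJ
        linarith)
    (fun m _ x hx => hasDerivAt_phs α β w J m x (hslit x hx)) (by
      intro m hm1 hmT x hx
      obtain ⟨ξ, τ, h1, h2, h3, h4, h5⟩ := hinv x hx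
      obtain ⟨m, rfl⟩ : ∃ m', m = m' + 1 := ⟨m - 1, by omega⟩
      have hval : (-1 : ℝ) ^ (m + 1 + 1) * phs α β w J (m + 1) x * (J : ℝ) ^ (m + 1) =
          (m.factorial : ℝ) * ξ ^ (m + 1) * (α * ((1 + τ * I : ℂ) ^ (m + 1)).im +
            2 * β * ((1 + τ * I : ℂ) ^ (m + 1)).re) := by
        have h9 : ((-1 : ℂ) ^ m * (m.factorial : ℂ) *
              ((ξ * (1 + τ * I)) / (J : ℂ)) ^ (m + 1)) =
              (((-1 : ℝ) ^ m * (m.factorial : ℝ) * (ξ / J) ^ (m + 1) : ℝ) : ℂ) *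
              (1 + τ * I : ℂ) ^ (m + 1) := by
          push_cast
          rw [div_pow, mul_pow, div_pow]
          ring
        have h8 : phi w J (m + 1) x =
            (-1 : ℝ) ^ m * (m.factorial : ℝ) * (ξ / J) ^ (m + 1) *
              ((1 + τ * I : ℂ) ^ (m + 1)).im := by
          simp only [phi]
          rw [h1, h9]
          exact Complex.im_ofReal_mul _ _
        have h8' : psi w J (m + 1) x =
            (-1 : ℝ) ^ m * (m.factorial : ℝ) * (ξ / J) ^ (m + 1) *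
              ((1 + τ * I : ℂ) ^ (m + 1)).re := by
          simp only [psi]
          rw [h1, h9]
          exact Complex.re_ofReal_mul _ _
        unfold phs
        rw [h8, h8']
        have hsgn : (-1 : ℝ) ^ (m + 1 + 1) * (-1 : ℝ) ^ m = 1 := by
          rw [← pow_add, show m + 1 + 1 + m = 2 * (m + 1) by ring, pow_mul]
          norm_num
        have h10 : (ξ / J) ^ (m + 1) * (J : ℝ) ^ (m + 1) = ξ ^ (m + 1) := by
          rw [← mul_pow, div_mul_cancel₀ _ hJ0.ne']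
        calc (-1 : ℝ) ^ (m + 1 + 1) * (α * ((-1 : ℝ) ^ m * (m.factorial : ℝ) *
              (ξ / J) ^ (m + 1) * ((1 + τ * I : ℂ) ^ (m + 1)).im) +
              2 * β * ((-1 : ℝ) ^ m * (m.factorial : ℝ) *
              (ξ / J) ^ (m + 1) * ((1 + τ * I : ℂ) ^ (m + 1)).re)) * (J : ℝ) ^ (m + 1)
            = ((-1 : ℝ) ^ (m + 1 + 1) * (-1 : ℝ) ^ m) * (m.factorial : ℝ) *
              ((ξ / J) ^ (m + 1) * (J : ℝ) ^ (m + 1)) *
              (α * ((1 + τ * I : ℂ) ^ (m + 1)).im +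
                2 * β * ((1 + τ * I : ℂ) ^ (m + 1)).re) := by ring
          _ = _ := by rw [hsgn, h10, one_mul]
      rw [hval]
      have hτ : 0 < τ := by linarith
      have hξ : 0 < ξ := by linarith
      obtain ⟨⟨ha1, ha2⟩, hb1, hb2⟩ := im_pow_bounds (M + 4) τ hτ h5 (m + 1) (by omega) hmT
      have hf1 : (1 : ℝ) ≤ m.factorial := by exact_mod_cast Nat.factorial_pos m
      have hmτ : ((m + 1 : ℕ) : ℝ) * τ ≤ 1 / 2 := by
        have : ((m + 1 : ℕ) : ℝ) ≤ ((M + 4 : ℕ) : ℝ) := by exact_mod_cast hmT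
        nlinarith
      have hτ2 : τ ≤ 1 / 2 := by
        have : (1 : ℝ) ≤ ((m + 1 : ℕ) : ℝ) := by
          push_cast
          have : (0 : ℝ) ≤ m := Nat.cast_nonneg m
          linarith
        nlinarith
      have hre : τ ≤ ((1 + τ * I : ℂ) ^ (m + 1)).re := by
        have h20 : ((m + 1 : ℕ) : ℝ) ^ 2 * τ ^ 2 ≤ 1 / 4 := by
          have h21 : 0 ≤ ((m + 1 : ℕ) : ℝ) * τ := by positivity
          nlinarith
        linarith
      have hv1 : τ ≤ α * ((1 + τ * I : ℂ) ^ (m + 1)).im +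
          2 * β * ((1 + τ * I : ℂ) ^ (m + 1)).re := by
        have e1 : α * τ ≤ α * ((1 + τ * I : ℂ) ^ (m + 1)).im := by gcongr
        have e2 : β * τ ≤ β * ((1 + τ * I : ℂ) ^ (m + 1)).re := by gcongr
        have e3 : 0 ≤ β * τ := by positivity
        have e4 : τ = α * τ + β * τ := by rw [← add_mul, hαβ, one_mul]
        linarith
      have hv2 : α * ((1 + τ * I : ℂ) ^ (m + 1)).im +
          2 * β * ((1 + τ * I : ℂ) ^ (m + 1)).re ≤ 2 := by
        have e1 : α * ((1 + τ * I : ℂ) ^ (m + 1)).im ≤ α * 1 := by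
          apply mul_le_mul_of_nonneg_left _ hα0
          linarith
        have e2 : β * ((1 + τ * I : ℂ) ^ (m + 1)).re ≤ β * 1 := by gcongr
        linarith
      set V : ℝ := α * ((1 + τ * I : ℂ) ^ (m + 1)).im +
          2 * β * ((1 + τ * I : ℂ) ^ (m + 1)).re
      constructor
      · have h11 : x₀ ^ (M + 4) ≤ ξ ^ (m + 1) :=
          (pow_le_pow_of_le_one hx₀.le hx₁ hmT).trans (pow_le_pow_left₀ hx₀.le h2 _)
        calc x₀ ^ (M + 4) * τ₀ ≤ ξ ^ (m + 1) * τ := by gcongr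
          _ ≤ (m.factorial : ℝ) * ξ ^ (m + 1) * τ := by
              have : 0 ≤ ξ ^ (m + 1) * τ := by positivity
              nlinarith
          _ ≤ _ := by gcongr
      · have h13 : (m.factorial : ℝ) ≤ ((M + 4).factorial : ℝ) := by
          exact_mod_cast Nat.factorial_le (by omega)
        have h14 : ξ ^ (m + 1) ≤ 1 := pow_le_one₀ hξ.le h3
        calc (m.factorial : ℝ) * ξ ^ (m + 1) * V
            ≤ (m.factorial : ℝ) * ξ ^ (m + 1) * 2 := by gcongr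
          _ ≤ (m.factorial : ℝ) * 1 * 2 := by gcongr
          _ ≤ _ := by linarith)
    (by rw [hξabs, le_div_iff₀ (by positivity)]; linarith)
    (by
      rw [hξabs]
      refine le_trans ?_ hkM
      apply div_le_self hN0.le
      linarith [Real.pi_gt_three])
  refine (mul_le_mul (norm_cc_le k l u) key (norm_nonneg _) zero_le_one).trans ?_
  rw [one_mul, hξabs]
  have h15 : (J : ℝ) / (N / (2 * Real.pi)) ≤ 7 * (J / N) := by
    rw [div_div_eq_mul_div, ← mul_div_assoc]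
    apply div_le_div_of_nonneg_right _ hN0.le
    nlinarith
  have h16 : (0 : ℝ) ≤ (J : ℝ) ^ (1 - η) := by positivity
  calc C * ((J : ℝ) ^ (1 - η) + J / (N / (2 * Real.pi)))
      ≤ C * (7 * (J : ℝ) ^ (1 - η) + 7 * (J / N)) := by
        gcongr
        linarith
    _ = _ := by ring

variable {t c : ℤ}

/-- the character on the order -/
noncomputable def cg (k l : ℤ) (z : Qd t c) : ℂ := cc k l (tc z)

lemma sum_lb_le2 (hD : t ^ 2 < 4 * c) {d : ℕ} {r : ℤ} {Y : ℝ} (hY : 0 ≤ Y) (k l : ℤ) :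
    ‖∑ z ∈ lb t c d r Y, cg k l z‖ ≤ 9 * (Qn c : ℝ) ^ 2 * Y := by
  refine (norm_sum_le _ _).trans ?_
  refine (sum_le_sum fun z _ => norm_cc_le k l (tc z)).trans ?_
  rw [sum_const, nsmul_eq_mul, mul_one]
  exact card_lb_le hD hY

/-- the bound for one cell -/
lemma cell_diff2 (hD : t ^ 2 < 4 * c) {T : ℕ} (hT : 1 ≤ T) {d : ℕ} (hd : 1 ≤ d) (r : ℤ) {Y : ℝ}
    (hY : 0 < Y) {S : ℕ} (hS : 1 ≤ S)
    (hS1 : Real.sqrt Y / (40960 * T ^ 2 * (d * (Qn c : ℝ) ^ 2)) / 2 ≤ (S : ℝ))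
    (hS2 : (S : ℝ) ≤ Real.sqrt Y / (40960 * T ^ 2 * (d * (Qn c : ℝ) ^ 2))) {f : Qd t c → ℂ} {b : ℝ}
    (hb : 0 ≤ b)
    (hline : ∀ (z₀ v : Qd t c) (L : ℕ), L ≤ 2 * S → v ≠ 0 →
      Good T (1 / (40960 * T ^ 2 * (d * (Qn c : ℝ) ^ 2) * 32)) (6 / (32 * T + 2))
        ((2 * S : ℕ) : ℝ) (tc z₀) (tc v) →
      ‖∑ n ∈ range L, f (z₀ + (n : Qd t c) * v)‖ ≤ b) (p : ℤ × ℤ) :
    ‖∑ z ∈ cl t c d r S Y p, f z - ∑ z ∈ cl t c d r S (Y / 4) p, f z‖ ≤
      2 * (((256 * T * Qn c ^ 2 * S + 1) * d ^ 2 : ℕ) * b) := by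
  have hT' : (1 : ℝ) ≤ T := by exact_mod_cast hT
  have hd' : (1 : ℝ) ≤ d := by exact_mod_cast hd
  have hQ3 := one_le_Qn hD
  have hr0 : 0 < Real.sqrt Y := Real.sqrt_pos.2 hY
  have hr2 : Real.sqrt Y ^ 2 = Y := Real.sq_sqrt hY.le
  by_cases hcase : ∃ zQ : Qd t c, (zQ.re / (S : ℤ), zQ.im / (S : ℤ)) = p ∧
      Y / 4 < (nm zQ : ℝ) ∧ (nm zQ : ℝ) ≤ 4 * Y
  · obtain ⟨zQ, hQp, hQ1, hQ2⟩ := hcase
    have hQn1 : Real.sqrt Y / 2 ≤ ‖tc zQ‖ := by
      rw [norm_tc hD]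
      apply Real.le_sqrt_of_sq_le
      rw [div_pow, hr2]
      linarith
    have hQn2 : ‖tc zQ‖ ≤ 2 * Real.sqrt Y := by
      rw [norm_tc hD]
      rw [Real.sqrt_le_left (by positivity), mul_pow, hr2]
      linarith
    obtain ⟨u, hu, hun, hgood⟩ := cell_good hD T hT d hd (Real.sqrt Y) S hS hS1 hS2 zQ hQn1 hQn2
    have hQp' := Prod.ext_iff.1 hQp
    simp only at hQp'
    -- the cell does not contain the origin
    have h0 : ¬ ((0 : ℤ) / (S : ℤ), (0 : ℤ) / (S : ℤ)) = p := by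
      intro h
      have h' := Prod.ext_iff.1 h
      simp only at h'
      have h1 := cell_re hS hQp'.1 h'.1
      have h2 := cell_re hS hQp'.2 h'.2
      rw [sub_zero] at h1 h2
      have h3 : ‖tc zQ‖ ≤ Qn c * S := by
        refine norm_tc_le hD zQ ?_ ?_
        · exact_mod_cast h1.le
        · exact_mod_cast h2.le
      have h8 : (Qn c : ℝ) * S * 4 ≤ Real.sqrt Y := by
        rw [le_div_iff₀ (by positivity)] at hS2
        have h10 : (0 : ℝ) ≤ S := Nat.cast_nonneg S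
        calc (Qn c : ℝ) * S * 4 = S * (4 * 1 * (1 * ((Qn c : ℝ) * 1))) := by ring
          _ ≤ S * (40960 * T ^ 2 * (d * ((Qn c : ℝ) * Qn c))) := by
              have hT2 : (1 : ℝ) ≤ (T : ℝ) ^ 2 := one_le_pow₀ hT'
              have hQ1' : (1 : ℝ) ≤ Qn c := by linarith
              gcongr
              norm_num
          _ ≤ Real.sqrt Y := by
              refine le_trans (le_of_eq ?_) hS2
              ring
      linarith
    have key : ∀ Y' : ℝ, ‖∑ z ∈ cl t c d r S Y' p, f z‖ ≤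
        ((256 * T * Qn c ^ 2 * S + 1) * d ^ 2 : ℕ) * b := by
      intro Y'
      have hin : ∀ z ∈ cl t c d r S Y' p, |z.re - zQ.re| < S ∧ |z.im - zQ.im| < S := by
        intro z hz
        have h1 := Prod.ext_iff.1 (mem_filter.1 hz).2
        simp only at h1
        exact ⟨cell_re hS h1.1 hQp'.1, cell_re hS h1.2 hQp'.2⟩
      refine cell_bound hD hd hu hun (lconv_cl hD hS Y' p h0) hin hb ?_
      intro z₀ hz₀ L hL
      obtain ⟨h1, h2⟩ := hin z₀ hz₀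
      have hv0 : (d : Qd t c) * u ≠ 0 := by
        intro h0
        have h1 := congrArg nm h0
        rw [nm_mul, nm_natCast, nm_zero] at h1
        have h2 : 0 < d ^ 2 * nm u :=
          Nat.mul_pos (by positivity) (nm_pos hD (prim_ne_zero hu))
        omega
      refine hline z₀ _ L hL hv0 ?_
      rw [tc_mul hD, tc_natCast]
      exact hgood z₀ h1 h2
    refine (norm_sub_le _ _).trans ?_
    have h1 := key Y
    have h2 := key (Y / 4)
    linarith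
  · push Not at hcase
    have heq : cl t c d r S Y p = cl t c d r S (Y / 4) p := by
      ext z
      unfold cl
      rw [mem_filter, mem_filter, mem_lb hD, mem_lb hD]
      constructor
      · rintro ⟨⟨⟨h1, h2⟩, hl⟩, h3⟩
        refine ⟨⟨⟨h1, ?_⟩, hl⟩, h3⟩
        by_contra hcon
        push Not at hcon
        have := hcase z h3 hcon
        linarith
      · rintro ⟨⟨⟨h1, h2⟩, hl⟩, h3⟩
        exact ⟨⟨⟨h1, by linarith⟩, hl⟩, h3⟩
    rw [heq, sub_self, norm_zero]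
    positivity

/-- the line bound in the order -/
lemma line_bound2' (hD : t ^ 2 < 4 * c) (M : ℕ) {x₀ τ₀ : ℝ} (hx₀ : 0 < x₀) (hx₁ : x₀ ≤ 1)
    (hτ₀ : 0 < τ₀) :
    ∃ η : ℝ, 0 < η ∧ η ≤ 1 ∧ ∃ C : ℝ, 0 < C ∧ ∀ (J L : ℕ) (z₀ u : Qd t c) (k l : ℤ),
      1 ≤ J → L ≤ J → u ≠ 0 → k * l ≤ 0 → Good (M + 4) x₀ τ₀ J (tc z₀) (tc u) →
      7 ≤ (|(k : ℝ)| + |(l : ℝ)|) → (|(k : ℝ)| + |(l : ℝ)|) ≤ (J : ℝ) ^ M →
      ‖∑ n ∈ range L, cg k l (z₀ + (n : Qd t c) * u)‖ ≤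
        C * ((J : ℝ) ^ (1 - η) + J / (|(k : ℝ)| + |(l : ℝ)|)) := by
  obtain ⟨η, hη, hη1, C, hC, h⟩ := line_bound2 M hx₀ hx₁ hτ₀
  refine ⟨η, hη, hη1, C, hC, ?_⟩
  intro J L z₀ u k l hJ hL hu hkl hg h7 hk
  have := h J L (tc z₀) (tc u) k l hJ hL (tc_ne_zero hD hu) hkl hg h7 hk
  refine le_trans (le_of_eq ?_) this
  congr 1
  refine sum_congr rfl fun n _ => ?_
  rw [cg, tc_add_natMul hD]

/-- the annulus `Y/4 < nm z ≤ Y`, `Y` large -/
lemma annulus_large2 (hD : t ^ 2 < 4 * c) {d : ℕ} (hd : 1 ≤ d) (r₀ : ℤ) (M : ℕ) : ∃ η : ℝ, 0 < η ∧ η ≤ 1 ∧ ∃ C : ℝ, 0 < C ∧ ∃ R : ℝ, 1 ≤ R ∧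
    ∀ (Y : ℝ) (k l : ℤ), k * l ≤ 0 → R ≤ Real.sqrt Y → 7 ≤ (|(k : ℝ)| + |(l : ℝ)|) → (|(k : ℝ)| + |(l : ℝ)|) ≤ Y ^ M →
      ‖∑ z ∈ lb t c d r₀ Y, cg k l z - ∑ z ∈ lb t c d r₀ (Y / 4), cg k l z‖ ≤
        C * (Y ^ (1 - η / 2) + Y / (|(k : ℝ)| + |(l : ℝ)|)) := by
  set T : ℕ := 4 * M + 4 with hT
  have hT1 : 1 ≤ T := by omega
  have hT' : (1 : ℝ) ≤ T := by exact_mod_cast hT1
  have hd' : (1 : ℝ) ≤ d := by exact_mod_cast hd
  set Q : ℝ := (Qn c : ℝ) with hQdef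
  have hQ3 : 3 ≤ Q := one_le_Qn hD
  set R₀ : ℝ := 40960 * T ^ 2 * (d * Q ^ 2) with hR₀
  have hR₀1 : 1 ≤ R₀ := by
    rw [hR₀]
    have h1 : (1 : ℝ) ≤ (T : ℝ) ^ 2 := one_le_pow₀ hT'
    have h2 : (1 : ℝ) ≤ Q ^ 2 := one_le_pow₀ (by linarith)
    calc (1 : ℝ) = 1 * 1 * (1 * 1) := by norm_num
      _ ≤ 40960 * T ^ 2 * (d * Q ^ 2) := by gcongr; norm_num
  obtain ⟨η, hη, hη1, C, hC, hline⟩ := line_bound2' hD (4 * M) (x₀ := 1 / (R₀ * 32))
    (τ₀ := 6 / (32 * T + 2)) (by positivity)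
    (by rw [div_le_one (by positivity)]; linarith) (by positivity)
  rw [← hT] at hline
  set A : ℕ := ⌈2 * R₀ * Q⌉₊ + 1 with hA
  have hA0 : 2 * R₀ * Q + 1 ≤ (A : ℝ) := by
    rw [hA]; push_cast
    linarith [Nat.le_ceil (2 * R₀ * Q)]
  refine ⟨η, hη, hη1, ((2 * A + 1 : ℕ) : ℝ) ^ 2 * (2 * (257 * T * Q ^ 2 * d ^ 2 * (C * 2))),
    by positivity, R₀ ^ 2, one_le_pow₀ hR₀1, ?_⟩
  intro Y k l hkl hY hk7 hkM
  set r : ℝ := Real.sqrt Y with hr
  have hr1 : R₀ ≤ r := by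
    refine le_trans ?_ hY
    nlinarith
  have hr1' : 1 ≤ r := hR₀1.trans hr1
  have hY0 : 0 < Y := by
    by_contra hcon
    push Not at hcon
    rw [hr, Real.sqrt_eq_zero_of_nonpos hcon] at hr1'
    linarith
  have hr2 : r ^ 2 = Y := Real.sq_sqrt hY0.le
  set S : ℕ := ⌊r / R₀⌋₊ with hS
  have hy1 : 1 ≤ r / R₀ := by rw [le_div_iff₀ (by linarith)]; linarith
  have hS1 : 1 ≤ S := Nat.le_floor (by exact_mod_cast hy1)
  have hSle : (S : ℝ) ≤ r / R₀ := Nat.floor_le (by positivity)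
  have hSge : r / R₀ / 2 ≤ (S : ℝ) := by
    have h1 : (1 : ℝ) ≤ S := by exact_mod_cast hS1
    have h2 := Nat.lt_floor_add_one (r / R₀)
    rw [← hS] at h2
    linarith
  have hS0 : (0 : ℝ) < S := by exact_mod_cast hS1
  have hSr : (S : ℝ) ≤ r := hSle.trans (div_le_self (by linarith) hR₀1)
  have hk0 : 0 < (|(k : ℝ)| + |(l : ℝ)|) := by linarith
  -- `|k| ≤ J ^ (4 M)`
  have hJ : (|(k : ℝ)| + |(l : ℝ)|) ≤ ((2 * S : ℕ) : ℝ) ^ (4 * M) := by
    have h1 : r / R₀ ≤ ((2 * S : ℕ) : ℝ) := by push_cast; linarith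
    have h2 : r ≤ (r / R₀) ^ 2 := by
      rw [div_pow, le_div_iff₀ (by positivity)]
      nlinarith
    calc (|(k : ℝ)| + |(l : ℝ)|) ≤ Y ^ M := hkM
      _ = r ^ (2 * M) := by rw [← hr2, ← pow_mul]
      _ ≤ ((r / R₀) ^ 2) ^ (2 * M) := by gcongr
      _ = (r / R₀) ^ (4 * M) := by rw [← pow_mul]; congr 1; ring
      _ ≤ _ := by gcongr
  set b : ℝ := C * (((2 * S : ℕ) : ℝ) ^ (1 - η) + ((2 * S : ℕ) : ℝ) / (|(k : ℝ)| + |(l : ℝ)|)) with hb
  have hb0 : 0 ≤ b := by positivity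
  have hcell := cell_diff2 hD hT1 hd r₀ hY0 hS1 hSge hSle (f := cg k l) hb0 (by
    intro z₀ u L hL hu hgood
    exact hline (2 * S) L z₀ u k l (by omega) hL hu hkl hgood hk7 hJ)
  have hidx : ∀ z ∈ lb t c d r₀ Y, |z.re / (S : ℤ)| ≤ A ∧ |z.im / (S : ℤ)| ≤ A := by
    intro z hz
    rw [mem_lb hD] at hz
    have h1 : Q * r + S ≤ A * S := by
      have h2 : r ≤ 2 * R₀ * S := by
        have h3 : r / R₀ ≤ 2 * S := by linarith
        rw [div_le_iff₀ (by linarith)] at h3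
        linarith
      calc Q * r + S ≤ Q * (2 * R₀ * S) + S := by gcongr
        _ = (2 * R₀ * Q + 1) * S := by ring
        _ ≤ A * S := by gcongr
    have h5 := coord_le hD hz.1.2
    exact ⟨abs_ediv_le hS1 h5.1 h1, abs_ediv_le hS1 h5.2 h1⟩
  have hidx' : ∀ z ∈ lb t c d r₀ (Y / 4), |z.re / (S : ℤ)| ≤ A ∧ |z.im / (S : ℤ)| ≤ A := by
    intro z hz
    apply hidx
    rw [mem_lb hD] at hz ⊢
    exact ⟨⟨hz.1.1, by linarith [hz.1.2]⟩, hz.2⟩
  rw [sum_lb_eq hidx, sum_lb_eq hidx', ← sum_sub_distrib]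
  refine (norm_sum_le _ _).trans ?_
  refine (sum_le_sum fun p _ => hcell p).trans ?_
  rw [sum_const, nsmul_eq_mul]
  have hcard : ((Icc (-(A : ℤ)) A) ×ˢ (Icc (-(A : ℤ)) A)).card = (2 * A + 1) ^ 2 := by
    rw [card_product, Int.card_Icc, sq]
    congr 1 <;> omega
  rw [hcard]
  push_cast
  rw [mul_assoc ((2 * (A : ℝ) + 1) ^ 2)]
  apply mul_le_mul_of_nonneg_left _ (by positivity)
  rw [mul_assoc (2 : ℝ)]
  apply mul_le_mul_of_nonneg_left _ (by positivity)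
  -- the bound for `b`
  have hb1 : b ≤ C * 2 * (r ^ (1 - η) + r / (|(k : ℝ)| + |(l : ℝ)|)) := by
    rw [hb, mul_assoc C 2]
    apply mul_le_mul_of_nonneg_left _ hC.le
    push_cast
    rw [mul_add]
    apply add_le_add
    · calc (2 * (S : ℝ)) ^ (1 - η) ≤ (2 * r) ^ (1 - η) := by
            apply Real.rpow_le_rpow (by positivity) (by linarith) (by linarith)
        _ = 2 ^ (1 - η) * r ^ (1 - η) := Real.mul_rpow (by norm_num) (by linarith)
        _ ≤ 2 * r ^ (1 - η) := by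
            apply mul_le_mul_of_nonneg_right _ (by positivity)
            calc (2 : ℝ) ^ (1 - η) ≤ 2 ^ (1 : ℝ) := by
                  apply Real.rpow_le_rpow_of_exponent_le (by norm_num) (by linarith)
              _ = 2 := Real.rpow_one 2
    · rw [mul_div_assoc]
      gcongr
  have h1 : (256 * (T : ℝ) * Q ^ 2 * S + 1) ≤ 257 * T * Q ^ 2 * r := by
    have h2 : (1 : ℝ) ≤ Q ^ 2 := one_le_pow₀ (by linarith)
    have h3 : (1 : ℝ) ≤ T * Q ^ 2 * r := by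
      calc (1 : ℝ) = 1 * 1 * 1 := by norm_num
        _ ≤ T * Q ^ 2 * r := by gcongr
    have h4 : 256 * (T : ℝ) * Q ^ 2 * S ≤ 256 * T * Q ^ 2 * r := by gcongr
    linarith
  calc (256 * (T : ℝ) * Q ^ 2 * S + 1) * (d : ℝ) ^ 2 * b
      ≤ (257 * T * Q ^ 2 * r) * (d : ℝ) ^ 2 * (C * 2 * (r ^ (1 - η) + r / (|(k : ℝ)| + |(l : ℝ)|))) := by
        gcongr
    _ = 257 * T * Q ^ 2 * d ^ 2 * (C * 2) * (r * r ^ (1 - η) + r ^ 2 / (|(k : ℝ)| + |(l : ℝ)|)) := by ring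
    _ = _ := by
        have h2 : r * r ^ (1 - η) = Y ^ (1 - η / 2) := by
          rw [← Real.rpow_one_add' (by linarith) (by linarith), hr, Real.sqrt_eq_rpow,
            ← Real.rpow_mul hY0.le]
          congr 1
          ring
        rw [h2, hr2]

/-- the annulus `Y/4 < nm z ≤ Y` -/
lemma annulus2 (hD : t ^ 2 < 4 * c) {d : ℕ} (hd : 1 ≤ d) (r₀ : ℤ) (M : ℕ) : ∃ η : ℝ, 0 < η ∧ η ≤ 1 / 2 ∧ ∃ C : ℝ, 0 < C ∧
    ∀ (Y : ℝ) (k l : ℤ), k * l ≤ 0 → 1 ≤ Y → 0 < (|(k : ℝ)| + |(l : ℝ)|) → (|(k : ℝ)| + |(l : ℝ)|) ≤ Y ^ M →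
      ‖∑ z ∈ lb t c d r₀ Y, cg k l z - ∑ z ∈ lb t c d r₀ (Y / 4), cg k l z‖ ≤
        C * (Y ^ (1 - η) + Y / (|(k : ℝ)| + |(l : ℝ)|)) := by
  obtain ⟨η, hη, hη1, C, hC, R, hR, h⟩ := annulus_large2 hD hd r₀ M
  set G : ℝ := (Qn c : ℝ) ^ 2 with hG
  have hG0 : 0 ≤ G := by positivity
  refine ⟨η / 2, by positivity, by linarith, C + 18 * G * 7 + 18 * G * R ^ 2, by positivity, ?_⟩
  intro Y k l hkl hY hk hkM
  have hk0 : 0 < (|(k : ℝ)| + |(l : ℝ)|) := hk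
  have hY0 : 0 < Y := by linarith
  have hp1 : 0 ≤ Y ^ (1 - η / 2) := by positivity
  have hp1' : 1 ≤ Y ^ (1 - η / 2) := Real.one_le_rpow hY (by linarith)
  have hp2 : 0 ≤ Y / (|(k : ℝ)| + |(l : ℝ)|) := by positivity
  have htriv : ‖∑ z ∈ lb t c d r₀ Y, cg k l z - ∑ z ∈ lb t c d r₀ (Y / 4), cg k l z‖ ≤
      18 * G * Y := by
    refine (norm_sub_le _ _).trans ?_
    have h1 := sum_lb_le2 hD (d := d) (r := r₀) hY0.le k l
    have h2 := sum_lb_le2 hD (d := d) (r := r₀) (by positivity : 0 ≤ Y / 4) k l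
    have h3 : 0 ≤ G * Y := by positivity
    rw [← hG] at h1 h2
    linarith
  by_cases hc1 : 7 ≤ (|(k : ℝ)| + |(l : ℝ)|)
  · by_cases hc2 : R ≤ Real.sqrt Y
    · refine (h Y k l hkl hc2 hc1 hkM).trans ?_
      apply mul_le_mul_of_nonneg_right _ (by positivity)
      have h3 : 0 ≤ G * R ^ 2 := by positivity
      linarith
    · push Not at hc2
      have h3 : Y ≤ R ^ 2 := by
        have : Real.sqrt Y ^ 2 ≤ R ^ 2 := by gcongr
        rwa [Real.sq_sqrt hY0.le] at this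
      refine htriv.trans ?_
      calc 18 * G * Y ≤ 18 * G * R ^ 2 * 1 := by
            rw [mul_one]
            gcongr
        _ ≤ 18 * G * R ^ 2 * (Y ^ (1 - η / 2) + Y / (|(k : ℝ)| + |(l : ℝ)|)) := by
            have h4 : (1 : ℝ) ≤ Y ^ (1 - η / 2) + Y / (|(k : ℝ)| + |(l : ℝ)|) := by linarith
            gcongr
        _ ≤ _ := by
            apply mul_le_mul_of_nonneg_right _ (by positivity)
            linarith
  · push Not at hc1
    refine htriv.trans ?_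
    have h4 : Y ≤ 7 * (Y / (|(k : ℝ)| + |(l : ℝ)|)) := by
      rw [← mul_div_assoc, le_div_iff₀ hk0]
      nlinarith
    calc 18 * G * Y ≤ 18 * G * (7 * (Y / (|(k : ℝ)| + |(l : ℝ)|))) := by gcongr
      _ ≤ 18 * G * (7 * (Y ^ (1 - η / 2) + Y / (|(k : ℝ)| + |(l : ℝ)|))) := by
          gcongr
          linarith
      _ = (18 * G * 7) * (Y ^ (1 - η / 2) + Y / (|(k : ℝ)| + |(l : ℝ)|)) := by ring
      _ ≤ _ := by
          apply mul_le_mul_of_nonneg_right _ (by positivity)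
          have h3 : 0 ≤ G * R ^ 2 := by positivity
          linarith

/-- **Angular sums, van der Corput part.** -/
theorem large_lat (hD : t ^ 2 < 4 * c) {d : ℕ} (hd : 1 ≤ d) (r₀ : ℤ) (M : ℕ) :
    ∃ η : ℝ, 0 < η ∧ η ≤ 1 / 2 ∧ ∃ C : ℝ, 0 < C ∧ ∀ (X : ℝ) (k l : ℤ), k * l ≤ 0 → 1 ≤ X →
      0 < (|(k : ℝ)| + |(l : ℝ)|) → (|(k : ℝ)| + |(l : ℝ)|) ≤ X ^ M →
      ‖∑ z ∈ lb t c d r₀ X, cg k l z‖ ≤ C * (X ^ (1 - η) + X / (|(k : ℝ)| + |(l : ℝ)|)) := by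
  obtain ⟨η, hη, hη1, C, hC, h⟩ := annulus2 hD hd r₀ (2 * M)
  set G : ℝ := 9 * (Qn c : ℝ) ^ 2 with hG
  have hG0 : 0 ≤ G := by positivity
  refine ⟨η, hη, hη1, 2 * C + G, by positivity, ?_⟩
  intro X k l hkl hX hk hkM
  have hk0 : 0 < (|(k : ℝ)| + |(l : ℝ)|) := hk
  have hX0 : 0 < X := by linarith
  have key : ∀ (n : ℕ) (Y : ℝ), 1 ≤ Y → Y ≤ X → Y ≤ 4 ^ n →
      ‖∑ z ∈ lb t c d r₀ Y, cg k l z‖ ≤ G * Real.sqrt X + 2 * C * (Y ^ (1 - η) + Y / (|(k : ℝ)| + |(l : ℝ)|)) := by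
    intro n
    induction n with
    | zero =>
      intro Y hY _ h1
      have hY0 : 0 < Y := by linarith
      have h2 := sum_lb_le2 hD (d := d) (r := r₀) hY0.le k l
      have h3 : 1 ≤ Real.sqrt X := by rw [Real.one_le_sqrt]; exact hX
      have h4 : 0 ≤ 2 * C * (Y ^ (1 - η) + Y / (|(k : ℝ)| + |(l : ℝ)|)) := by positivity
      have h5 : Y ≤ 1 := by simpa using h1
      rw [← hG] at h2
      have h6 : G * Y ≤ G * Real.sqrt X := by
        gcongr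
        linarith
      linarith
    | succ n ih =>
      intro Y hY hYX h1
      have hY0 : 0 < Y := by linarith
      have h4 : 0 ≤ 2 * C * (Y ^ (1 - η) + Y / (|(k : ℝ)| + |(l : ℝ)|)) := by positivity
      by_cases hc : Y ≤ Real.sqrt X
      · have h2 := sum_lb_le2 hD (d := d) (r := r₀) hY0.le k l
        rw [← hG] at h2
        have h6 : G * Y ≤ G * Real.sqrt X := by gcongr
        linarith
      · push Not at hc
        have hXY : X ≤ Y ^ 2 := by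
          have h5 : Real.sqrt X ^ 2 ≤ Y ^ 2 := by gcongr
          rwa [Real.sq_sqrt hX0.le] at h5
        have hkY : (|(k : ℝ)| + |(l : ℝ)|) ≤ Y ^ (2 * M) := by
          rw [pow_mul]
          exact hkM.trans (by gcongr)
        have h6 := h Y k l hkl hY hk hkY
        have h7 : ‖∑ z ∈ lb t c d r₀ (Y / 4), cg k l z‖ ≤ G * Real.sqrt X +
            2 * C * ((Y / 4) ^ (1 - η) + (Y / 4) / (|(k : ℝ)| + |(l : ℝ)|)) := by
          by_cases hc4 : 1 ≤ Y / 4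
          · exact ih (Y / 4) hc4 (by linarith) (by rw [pow_succ] at h1; linarith)
          · push Not at hc4
            rw [lb_eq_empty hD hc4, sum_empty, norm_zero]
            positivity
        have h8 : (Y / 4) ^ (1 - η) ≤ Y ^ (1 - η) / 2 := by
          rw [Real.div_rpow hY0.le (by norm_num)]
          apply div_le_div_of_nonneg_left (by positivity) (by norm_num)
          calc (2 : ℝ) = 4 ^ (1 / 2 : ℝ) := by
                rw [← Real.sqrt_eq_rpow, show (4 : ℝ) = 2 ^ 2 by norm_num,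
                  Real.sqrt_sq (by norm_num)]
            _ ≤ 4 ^ (1 - η) := by
                apply Real.rpow_le_rpow_of_exponent_le (by norm_num) (by linarith)
        have h9 : ‖∑ z ∈ lb t c d r₀ Y, cg k l z‖ ≤
            ‖∑ z ∈ lb t c d r₀ Y, cg k l z - ∑ z ∈ lb t c d r₀ (Y / 4), cg k l z‖ +
              ‖∑ z ∈ lb t c d r₀ (Y / 4), cg k l z‖ := by
          have := norm_add_le (∑ z ∈ lb t c d r₀ Y, cg k l z - ∑ z ∈ lb t c d r₀ (Y / 4), cg k l z)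
            (∑ z ∈ lb t c d r₀ (Y / 4), cg k l z)
          rwa [sub_add_cancel] at this
        have h10 : (Y / 4) / (|(k : ℝ)| + |(l : ℝ)|) ≤ (Y / (|(k : ℝ)| + |(l : ℝ)|)) / 2 := by
          rw [div_right_comm]
          have : 0 ≤ Y / (|(k : ℝ)| + |(l : ℝ)|) := by positivity
          linarith
        have h11 : 2 * C * ((Y / 4) ^ (1 - η) + (Y / 4) / (|(k : ℝ)| + |(l : ℝ)|)) ≤
            2 * C * (Y ^ (1 - η) / 2 + (Y / (|(k : ℝ)| + |(l : ℝ)|)) / 2) := by gcongr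
        have h12 : 2 * C * (Y ^ (1 - η) / 2 + (Y / (|(k : ℝ)| + |(l : ℝ)|)) / 2) +
            C * (Y ^ (1 - η) + Y / (|(k : ℝ)| + |(l : ℝ)|)) = 2 * C * (Y ^ (1 - η) + Y / (|(k : ℝ)| + |(l : ℝ)|)) := by ring
        linarith
  obtain ⟨n, hn⟩ := pow_unbounded_of_one_lt X (by norm_num : (1 : ℝ) < 4)
  refine (key n X hX le_rfl hn.le).trans ?_
  have h1 : Real.sqrt X ≤ X ^ (1 - η) := by
    rw [Real.sqrt_eq_rpow]
    apply Real.rpow_le_rpow_of_exponent_le hX (by linarith)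
  have h2 : 0 ≤ X / (|(k : ℝ)| + |(l : ℝ)|) := by positivity
  calc G * Real.sqrt X + 2 * C * (X ^ (1 - η) + X / (|(k : ℝ)| + |(l : ℝ)|))
      ≤ G * (X ^ (1 - η) + X / (|(k : ℝ)| + |(l : ℝ)|)) + 2 * C * (X ^ (1 - η) + X / (|(k : ℝ)| + |(l : ℝ)|)) := by
        gcongr
        linarith
    _ = _ := by ring

end Pool.Agent.N767.MS
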