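import Pool.Agent.N912.MS.Stm
import Pool.Agent.W397.GA.Ang2
import Pool.Agent.W327.GA.Ang1
import Pool.Agent.W45.GA.Lat

/-!
Project MS (helper912), MS1, part one (helper767): exponential sums over balls with frequency
`(k, l)`, `l` small: partial summation. `Σ chi (k, l) ≪ (1 + |l|) X^(1 - η)`.
-/

set_option autoImplicit false

namespace Pool.Agent.N767.MS

open Finset MeasureTheory
open Pool.Agent.H376R2.MR (ch)
open Pool.Agent.W78.GA (Qd nm prim ball win ann ang ps bg tc kap lat mem_ball S_ANG S_ANG1 S_ANG2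
  S_LAT norm_ps_le norm_ps one_le_nm ps_zero)
open Pool.Agent.N912.MS

/-- the discriminant condition for the Gaussian integers -/
lemma hDi : (0 : ℤ) ^ 2 < 4 * 1 := by norm_num

lemma kap_eq : kap 0 1 = Real.pi := by
  unfold kap
  have h : Real.sqrt (4 * ((1 : ℤ) : ℝ) - ((0 : ℤ) : ℝ) ^ 2) = 2 := by
    push_cast
    rw [show (4 * 1 - (0 : ℝ) ^ 2) = 2 ^ 2 by norm_num]
    exact Real.sqrt_sq (by norm_num)
  rw [h]
  field_simp

/-- all elements are in the lattice `d = 1` -/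
lemma filter_lat_one (X : ℝ) : (ball 0 1 X).filter (lat 1 0) = ball 0 1 X := by
  apply filter_true_of_mem
  intro z _
  exact (by simp : ((1 : ℕ) : ℤ) ∣ z.re + 0 * z.im)

/-- `t^(-il)` -/
noncomputable def fl (l : ℤ) (t : ℝ) : ℂ := ch l (Real.log t)

lemma fl_eq (l : ℤ) (t : ℝ) : fl l t = Complex.exp ((-(l : ℂ) * Complex.I) * (Real.log t : ℂ)) := by
  unfold fl ch
  congr 1
  push_cast
  ring

lemma norm_fl (l : ℤ) (t : ℝ) : ‖fl l t‖ = 1 := by
  unfold fl ch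
  rw [show (-((l * Real.log t : ℝ) : ℂ) * Complex.I) = ((-(l * Real.log t) : ℝ) : ℂ) * Complex.I by
    push_cast; ring]
  exact Complex.norm_exp_ofReal_mul_I _

lemma hasDerivAt_fl (l : ℤ) {t : ℝ} (ht : 0 < t) :
    HasDerivAt (fl l) ((-(l : ℂ) * Complex.I) / t * fl l t) t := by
  have h1 : HasDerivAt (fun t : ℝ => (Real.log t : ℂ)) (((t⁻¹ : ℝ) : ℂ)) t :=
    (Real.hasDerivAt_log ht.ne').ofReal_comp
  have h2 := (h1.const_mul (-(l : ℂ) * Complex.I)).cexp
  have h3 : fl l = fun t : ℝ => Complex.exp ((-(l : ℂ) * Complex.I) * (Real.log t : ℂ)) := by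
    funext t
    exact fl_eq l t
  rw [h3]
  convert h2 using 1
  push_cast
  ring

lemma norm_deriv_fl (l : ℤ) {t : ℝ} (ht : 0 < t) : ‖deriv (fl l) t‖ = |(l : ℝ)| / t := by
  rw [(hasDerivAt_fl l ht).deriv, norm_mul, norm_fl, mul_one, norm_div, norm_mul, norm_neg,
    Complex.norm_I, mul_one, Complex.norm_real, Real.norm_of_nonneg ht.le]
  congr 1
  exact Complex.norm_intCast l

lemma continuousOn_deriv_fl (l : ℤ) {a b : ℝ} (ha : 0 < a) :
    ContinuousOn (deriv (fl l)) (Set.Icc a b) := by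
  have h : ∀ t ∈ Set.Icc a b, deriv (fl l) t = (-(l : ℂ) * Complex.I) / t * fl l t := fun t ht =>
    (hasDerivAt_fl l (ha.trans_le ht.1)).deriv
  refine ContinuousOn.congr ?_ h
  apply ContinuousOn.mul
  · apply ContinuousOn.div continuousOn_const
    · exact Complex.continuous_ofReal.continuousOn
    · intro t ht
      exact_mod_cast (ha.trans_le ht.1).ne'
  · intro t ht
    exact (hasDerivAt_fl l (ha.trans_le ht.1)).continuousAt.continuousWithinAt

lemma integrableOn_deriv_fl (l : ℤ) {a b : ℝ} (ha : 0 < a) :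
    IntegrableOn (deriv (fl l)) (Set.Icc a b) :=
  (continuousOn_deriv_fl l ha).integrableOn_Icc

/-- the coefficient at norm `n` -/
noncomputable def cn (k : ℤ) (n : ℕ) : ℂ := ∑ z ∈ (ball 0 1 (n : ℝ)).filter (fun z => nm z = n), ps k z

lemma filter_nm {n : ℕ} {X : ℝ} (h : (n : ℝ) ≤ X) :
    (ball 0 1 X).filter (fun z => nm z = n) = (ball 0 1 (n : ℝ)).filter (fun z => nm z = n) := by
  ext z
  rw [mem_filter, mem_filter, mem_ball hDi, mem_ball hDi]
  constructor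
  · rintro ⟨⟨h1, h2⟩, h3⟩
    exact ⟨⟨h1, by rw [h3]⟩, h3⟩
  · rintro ⟨⟨h1, h2⟩, h3⟩
    exact ⟨⟨h1, h2.trans h⟩, h3⟩

/-- grouping by the norm -/
lemma sum_group (k : ℤ) (g : ℝ → ℂ) {X : ℝ} (hX : 0 ≤ X) :
    ∑ n ∈ Icc 0 ⌊X⌋₊, g n * cn k n = ∑ z ∈ ball 0 1 X, ps k z * g (nm z) := by
  rw [← sum_fiberwise_of_maps_to (s := ball 0 1 X) (t := Icc 0 ⌊X⌋₊) (g := fun z => nm z)]
  · refine sum_congr rfl fun n hn => ?_
    rw [mem_Icc] at hn
    have h1 : (n : ℝ) ≤ X := (Nat.cast_le.2 hn.2).trans (Nat.floor_le hX)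
    rw [cn, ← filter_nm h1, mul_sum]
    refine sum_congr rfl fun z hz => ?_
    rw [mem_filter] at hz
    rw [hz.2, mul_comm]
  · intro z hz
    rw [mem_ball hDi] at hz
    rw [mem_Icc]
    exact ⟨Nat.zero_le _, Nat.le_floor hz.2⟩

lemma sum_cn (k : ℤ) {X : ℝ} (hX : 0 ≤ X) :
    ∑ n ∈ Icc 0 ⌊X⌋₊, cn k n = ∑ z ∈ ball 0 1 X, ps k z := by
  have h := sum_group k (fun _ => 1) hX
  simpa using h

lemma cn_zero (k : ℤ) : cn k 0 = 0 := by
  unfold cn
  apply sum_eq_zero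
  intro z hz
  rw [mem_filter, mem_ball hDi] at hz
  have h1 := hz.1.1
  have h2 := hz.2
  omega

lemma chi_sum_eq (k l : ℤ) {X : ℝ} (hX : 0 ≤ X) :
    ∑ z ∈ ball 0 1 X, chi (k, l) z = ∑ n ∈ Icc 0 ⌊X⌋₊, fl l n * cn k n := by
  rw [sum_group k (fl l) hX]
  rfl

/-- trivial bound -/
lemma chi_le (κ : ℤ × ℤ) (z : Gi) : ‖chi κ z‖ ≤ 1 := by
  unfold chi
  rw [norm_mul]
  have h1 : ‖ch κ.2 (Real.log (nm z))‖ = 1 := norm_fl κ.2 (nm z : ℝ)
  rw [h1, mul_one]
  exact norm_ps_le z κ.1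

/-- the number of elements of a ball -/
lemma card_ball : ∃ C : ℝ, 0 < C ∧ ∀ X : ℝ, 1 ≤ X →
    |((ball 0 1 X).card : ℝ) - Real.pi * X| ≤ C * Real.sqrt X := by
  obtain ⟨C, hC, h, _⟩ := Pool.Agent.W45.GA.lat (t := 0) (c := 1) hDi
  refine ⟨C, hC, fun X hX => ?_⟩
  have h1 := h X 1 0 hX le_rfl
  rw [filter_lat_one, kap_eq] at h1
  simpa using h1

lemma card_ball_le : ∃ C : ℝ, 0 < C ∧ ∀ X : ℝ, 1 ≤ X → ((ball 0 1 X).card : ℝ) ≤ C * X := by
  obtain ⟨C, hC, h⟩ := card_ball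
  refine ⟨Real.pi + C, by positivity, fun X hX => ?_⟩
  have h1 := (abs_le.1 (h X hX)).2
  have h2 : Real.sqrt X ≤ X := by
    rw [Real.sqrt_le_left (by linarith)]
    nlinarith
  nlinarith

theorem small_ne : ∀ M : ℕ, ∃ η : ℝ, 0 < η ∧ η ≤ 1 / 2 ∧ ∃ C : ℝ, 0 < C ∧ ∀ (X : ℝ) (k l : ℤ),
    1 ≤ X → k ≠ 0 → |(k : ℝ)| ≤ X ^ M →
    ‖∑ z ∈ ball 0 1 X, chi (k, l) z‖ ≤ C * (1 + |(l : ℝ)|) * X ^ (1 - η) := by
  intro M
  obtain ⟨η₀, hη₀, C, hC, h⟩ := Pool.Agent.W397.GA.ang_of (Pool.Agent.W327.GA.ang1 hDi)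
    (Pool.Agent.W397.GA.ang2 hDi) 1 0 (2 * M) le_rfl
  simp only [filter_lat_one] at h
  obtain ⟨C₁, hC₁, hcard⟩ := card_ball_le
  set η : ℝ := min η₀ 1 / 2 with hη
  have hη0 : 0 < η := by rw [hη]; positivity
  have hη1 : η ≤ 1 / 2 := by
    rw [hη]
    have := min_le_right η₀ 1
    linarith
  have hη2 : 2 * η ≤ η₀ := by
    rw [hη]
    have := min_le_left η₀ 1
    linarith
  refine ⟨η, hη0, hη1, 3 * C + 2 * C₁, by positivity, ?_⟩
  intro X k l hX hk hkM
  have hX0 : 0 < X := by linarith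
  set s : ℝ := Real.sqrt X with hs
  have hs1 : 1 ≤ s := Real.one_le_sqrt.2 hX
  have hsX : s ≤ X := by
    rw [hs, Real.sqrt_le_left (by linarith)]
    nlinarith
  have hs2 : s ^ 2 = X := Real.sq_sqrt hX0.le
  have hs0 : 0 < s := by linarith
  -- the bound for the angular sums
  have hA : ∀ t ∈ Set.Icc s X, ‖∑ z ∈ ball 0 1 t, ps k z‖ ≤ C * t * X ^ (-η) := by
    intro t ht
    have ht1 : 1 ≤ t := hs1.trans ht.1
    have ht0 : 0 < t := by linarith
    have h1 : |(k : ℝ)| ≤ t ^ (2 * M) := by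
      calc |(k : ℝ)| ≤ X ^ M := hkM
        _ = s ^ (2 * M) := by rw [← hs2, ← pow_mul]
        _ ≤ t ^ (2 * M) := by gcongr; exact ht.1
    refine (h t k ht1 hk h1).trans ?_
    rw [mul_assoc]
    apply mul_le_mul_of_nonneg_left _ hC.le
    calc t ^ (1 - η₀) ≤ t ^ (1 + (-(2 * η))) := by
          apply Real.rpow_le_rpow_of_exponent_le ht1
          linarith
      _ = t * t ^ (-(2 * η)) := by rw [Real.rpow_add ht0, Real.rpow_one]
      _ ≤ t * s ^ (-(2 * η)) := by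
          apply mul_le_mul_of_nonneg_left _ ht0.le
          exact Real.rpow_le_rpow_of_nonpos hs0 ht.1 (by linarith)
      _ = t * X ^ (-η) := by
          congr 1
          rw [← hs2, ← Real.rpow_natCast s 2, ← Real.rpow_mul hs0.le]
          congr 1
          push_cast
          ring
  -- Abel summation
  have hab := sum_mul_eq_sub_sub_integral_mul (cn k) (f := fl l) (a := s) (b := X) hs0.le hsX
    (fun t ht => (hasDerivAt_fl l (hs0.trans_le ht.1)).differentiableAt)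
    (integrableOn_deriv_fl l hs0)
  have hsplit : ∑ z ∈ ball 0 1 X, chi (k, l) z = ∑ z ∈ ball 0 1 s, chi (k, l) z +
      ∑ n ∈ Ioc ⌊s⌋₊ ⌊X⌋₊, fl l n * cn k n := by
    rw [chi_sum_eq k l hX0.le, chi_sum_eq k l hs0.le]
    have h1 : Icc 0 ⌊X⌋₊ = Icc 0 ⌊s⌋₊ ∪ Ioc ⌊s⌋₊ ⌊X⌋₊ := by
      have h2 : ⌊s⌋₊ ≤ ⌊X⌋₊ := Nat.floor_le_floor hsX
      ext n
      simp only [mem_Icc, mem_union, mem_Ioc]
      omega
    rw [h1, sum_union]
    rw [disjoint_left]
    intro n hn hn'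
    rw [mem_Icc] at hn
    rw [mem_Ioc] at hn'
    omega
  rw [hsplit, hab, sum_cn k hX0.le, sum_cn k hs0.le]
  -- the four terms
  have e1 : ‖∑ z ∈ ball 0 1 s, chi (k, l) z‖ ≤ C₁ * X ^ (1 - η) := by
    calc ‖∑ z ∈ ball 0 1 s, chi (k, l) z‖ ≤ ∑ z ∈ ball 0 1 s, (1 : ℝ) :=
          norm_sum_le_of_le _ fun z _ => chi_le _ z
      _ = ((ball 0 1 s).card : ℝ) := by simp
      _ ≤ C₁ * s := hcard s hs1
      _ ≤ C₁ * X ^ (1 - η) := by
          apply mul_le_mul_of_nonneg_left _ hC₁.le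
          rw [hs, Real.sqrt_eq_rpow]
          exact Real.rpow_le_rpow_of_exponent_le hX (by linarith)
  have hXX : X * X ^ (-η) = X ^ (1 - η) := by
    rw [sub_eq_add_neg, Real.rpow_add hX0, Real.rpow_one]
  have hXp : 0 < X ^ (-η) := Real.rpow_pos_of_pos hX0 _
  have e2 : ‖fl l X * ∑ z ∈ ball 0 1 X, ps k z‖ ≤ C * X ^ (1 - η) := by
    rw [norm_mul, norm_fl, one_mul, ← hXX, ← mul_assoc]
    exact hA X ⟨hsX, le_rfl⟩
  have e3 : ‖fl l s * ∑ z ∈ ball 0 1 s, ps k z‖ ≤ C * X ^ (1 - η) := by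
    rw [norm_mul, norm_fl, one_mul, ← hXX, ← mul_assoc]
    refine (hA s ⟨le_rfl, hsX⟩).trans ?_
    gcongr
  have e4 : ‖∫ t in Set.Ioc s X, deriv (fl l) t * ∑ n ∈ Icc 0 ⌊t⌋₊, cn k n‖ ≤
      C * |(l : ℝ)| * X ^ (1 - η) := by
    have h1 : ‖∫ t in Set.Ioc s X, deriv (fl l) t * ∑ n ∈ Icc 0 ⌊t⌋₊, cn k n‖ ≤
        (C * |(l : ℝ)| * X ^ (-η)) * volume.real (Set.Ioc s X) := by
      apply norm_setIntegral_le_of_norm_le_const
      · simp
      · intro t ht
        have ht0 : 0 < t := hs0.trans ht.1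
        rw [norm_mul, norm_deriv_fl l ht0, sum_cn k ht0.le]
        have h2 := hA t ⟨ht.1.le, ht.2⟩
        calc |(l : ℝ)| / t * ‖∑ z ∈ ball 0 1 t, ps k z‖ ≤ |(l : ℝ)| / t * (C * t * X ^ (-η)) := by
              gcongr
          _ = C * |(l : ℝ)| * X ^ (-η) := by
              field_simp
    refine h1.trans ?_
    rw [Real.volume_real_Ioc_of_le hsX, ← hXX]
    calc C * |(l : ℝ)| * X ^ (-η) * (X - s) ≤ C * |(l : ℝ)| * X ^ (-η) * X := by
          gcongr
          linarith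
      _ = _ := by ring
  have hXq : 0 < X ^ (1 - η) := Real.rpow_pos_of_pos hX0 _
  have hl0 : 0 ≤ |(l : ℝ)| := abs_nonneg _
  calc _ ≤ ‖∑ z ∈ ball 0 1 s, chi (k, l) z‖ + (‖fl l X * ∑ z ∈ ball 0 1 X, ps k z‖ +
        ‖fl l s * ∑ z ∈ ball 0 1 s, ps k z‖ +
        ‖∫ t in Set.Ioc s X, deriv (fl l) t * ∑ n ∈ Icc 0 ⌊t⌋₊, cn k n‖) := by
        refine (norm_add_le _ _).trans ?_
        gcongr
        refine (norm_sub_le _ _).trans ?_
        gcongr
        exact norm_sub_le _ _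
    _ ≤ C₁ * X ^ (1 - η) + (C * X ^ (1 - η) + C * X ^ (1 - η) + C * |(l : ℝ)| * X ^ (1 - η)) := by
        gcongr
    _ = (C₁ + 2 * C + C * |(l : ℝ)|) * X ^ (1 - η) := by ring
    _ ≤ (3 * C + 2 * C₁) * (1 + |(l : ℝ)|) * X ^ (1 - η) := by
        apply mul_le_mul_of_nonneg_right _ hXq.le
        nlinarith [mul_nonneg hC.le hl0, mul_nonneg hC₁.le hl0]

lemma cpow_eq (l : ℤ) {X : ℝ} (hX : 0 < X) :
    (X : ℂ) ^ (1 - l * Complex.I) = X * fl l X := by
  have hX' : (X : ℂ) ≠ 0 := by exact_mod_cast hX.ne'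
  rw [Complex.cpow_sub _ _ hX', Complex.cpow_one, fl_eq, Complex.cpow_def_of_ne_zero hX',
    ← Complex.ofReal_log hX.le, div_eq_mul_inv, ← Complex.exp_neg]
  congr 2
  ring

lemma one_sub_ne (l : ℤ) : (1 - (l : ℂ) * Complex.I) ≠ 0 := by
  intro h
  have := congrArg Complex.re h
  simp at this

lemma one_le_norm_one_sub (l : ℤ) : 1 ≤ ‖(1 - (l : ℂ) * Complex.I)‖ ∧
    |(l : ℝ)| ≤ ‖(1 - (l : ℂ) * Complex.I)‖ := by
  constructor
  · have := Complex.abs_re_le_norm (1 - (l : ℂ) * Complex.I)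
    simpa using this
  · have := Complex.abs_im_le_norm (1 - (l : ℂ) * Complex.I)
    simpa using this

/-- `∫_1^X t^(-il) dt` -/
lemma integral_fl (l : ℤ) {X : ℝ} (hX : 1 ≤ X) :
    ∫ t in (1 : ℝ)..X, fl l t = (X * fl l X - 1) / (1 - l * Complex.I) := by
  have hd : ∀ t ∈ Set.uIcc 1 X, HasDerivAt (fun t : ℝ => (t : ℂ) * fl l t / (1 - l * Complex.I))
      (fl l t) t := by
    intro t ht
    rw [Set.uIcc_of_le hX] at ht
    have ht0 : 0 < t := by linarith [ht.1]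
    have ht' : (t : ℂ) ≠ 0 := by exact_mod_cast ht0.ne'
    have h1 : HasDerivAt (fun t : ℝ => (t : ℂ)) 1 t := by
      simpa using (hasDerivAt_id t).ofReal_comp
    have h2 : HasDerivAt (fun t : ℝ => (t : ℂ) * fl l t / (1 - l * Complex.I))
        ((1 * fl l t + (t : ℂ) * ((-(l : ℂ) * Complex.I) / t * fl l t)) / (1 - l * Complex.I)) t :=
      (h1.mul (hasDerivAt_fl l ht0)).div_const (1 - l * Complex.I)
    have h3 : ((1 * fl l t + (t : ℂ) * ((-(l : ℂ) * Complex.I) / t * fl l t)) /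
        (1 - l * Complex.I)) = fl l t := by
      rw [div_eq_iff (one_sub_ne l)]
      field_simp
      ring
    rw [h3] at h2
    exact h2
  rw [intervalIntegral.integral_eq_sub_of_hasDerivAt hd]
  · have h1 : fl l 1 = 1 := by rw [fl_eq]; simp
    rw [h1]
    push_cast
    ring
  · apply ContinuousOn.intervalIntegrable
    intro t ht
    rw [Set.uIcc_of_le hX] at ht
    exact (hasDerivAt_fl l (by linarith [ht.1])).continuousAt.continuousWithinAt

lemma ball_lt_one {t : ℝ} (ht : t < 1) : ball 0 1 t = ∅ := by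
  rw [eq_empty_iff_forall_notMem]
  intro z hz
  rw [mem_ball hDi] at hz
  have h1 : (1 : ℝ) ≤ nm z := by exact_mod_cast hz.1
  linarith [hz.2]

theorem small_zero : ∃ C : ℝ, 0 < C ∧ ∀ (X : ℝ) (l : ℤ), 1 ≤ X →
    ‖∑ z ∈ ball 0 1 X, chi (0, l) z -
      (Real.pi : ℂ) * (X : ℂ) ^ (1 - l * Complex.I) / (1 - l * Complex.I)‖ ≤
        C * (1 + |(l : ℝ)|) * Real.sqrt X := by
  obtain ⟨C, hC, hcard⟩ := card_ball
  refine ⟨2 * C + 10, by positivity, ?_⟩
  intro X l hX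
  have hX0 : 0 < X := by linarith
  have hps : ∀ t : ℝ, ∑ z ∈ ball 0 1 t, ps 0 z = (((ball 0 1 t).card : ℝ) : ℂ) := by
    intro t
    simp
  set E : ℝ → ℂ := fun t => (((ball 0 1 t).card : ℝ) : ℂ) - (Real.pi : ℂ) * t with hE
  have hEb : ∀ t : ℝ, 1 ≤ t → ‖E t‖ ≤ C * Real.sqrt t := by
    intro t ht
    have h1 : E t = ((((ball 0 1 t).card : ℝ) - Real.pi * t : ℝ) : ℂ) := by
      rw [hE]
      push_cast
      ring
    rw [h1, Complex.norm_real]
    exact hcard t ht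
  -- Abel summation from `1`
  have hab := sum_mul_eq_sub_sub_integral_mul (cn 0) (f := fl l) (a := 1) (b := X) zero_le_one hX
    (fun t ht => (hasDerivAt_fl l (by linarith [ht.1])).differentiableAt)
    (integrableOn_deriv_fl l one_pos)
  have hsplit : ∑ z ∈ ball 0 1 X, chi (0, l) z = fl l 1 * ∑ n ∈ Icc 0 ⌊(1 : ℝ)⌋₊, cn 0 n +
      ∑ n ∈ Ioc ⌊(1 : ℝ)⌋₊ ⌊X⌋₊, fl l n * cn 0 n := by
    rw [chi_sum_eq 0 l hX0.le]
    have h1 : Icc 0 ⌊X⌋₊ = Icc 0 ⌊(1 : ℝ)⌋₊ ∪ Ioc ⌊(1 : ℝ)⌋₊ ⌊X⌋₊ := by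
      have h2 : ⌊(1 : ℝ)⌋₊ ≤ ⌊X⌋₊ := Nat.floor_le_floor hX
      ext n
      simp only [mem_Icc, mem_union, mem_Ioc]
      omega
    rw [h1, sum_union]
    · congr 1
      rw [Nat.floor_one, sum_Icc_succ_top (by norm_num), sum_Icc_succ_top (by norm_num)]
      simp [cn_zero]
    · rw [disjoint_left]
      intro n hn hn'
      rw [mem_Icc] at hn
      rw [mem_Ioc] at hn'
      omega
  -- the integral
  have hint : ∫ t in Set.Ioc 1 X, deriv (fl l) t * ∑ n ∈ Icc 0 ⌊t⌋₊, cn 0 n =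
      ∫ t in Set.Ioc 1 X, (deriv (fl l) t * E t + (-(l : ℂ) * Complex.I) * Real.pi * fl l t) := by
    apply setIntegral_congr_fun measurableSet_Ioc
    intro t ht
    have ht0 : 0 < t := by linarith [ht.1]
    have ht' : (t : ℂ) ≠ 0 := by exact_mod_cast ht0.ne'
    simp only
    rw [sum_cn 0 ht0.le, hps, hE]
    simp only
    rw [mul_sub, (hasDerivAt_fl l ht0).deriv]
    field_simp
    ring
  have hfl_int : IntegrableOn (fun t => (-(l : ℂ) * Complex.I) * Real.pi * fl l t)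
      (Set.Ioc 1 X) := by
    apply IntegrableOn.mono_set _ Set.Ioc_subset_Icc_self
    apply ContinuousOn.integrableOn_Icc
    apply ContinuousOn.mul continuousOn_const
    intro t ht
    exact (hasDerivAt_fl l (by linarith [ht.1])).continuousAt.continuousWithinAt
  have hE_int : IntegrableOn (fun t => deriv (fl l) t * E t) (Set.Ioc 1 X) := by
    have h1 : IntegrableOn (fun t => deriv (fl l) t * ∑ n ∈ Icc 0 ⌊t⌋₊, cn 0 n)
        (Set.Ioc 1 X) :=
      (integrableOn_mul_sum_Icc (cn 0) (m := 0) zero_le_one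
        (integrableOn_deriv_fl l one_pos)).mono_set Set.Ioc_subset_Icc_self
    have h2 := h1.sub hfl_int
    refine h2.congr_fun ?_ measurableSet_Ioc
    intro t ht
    have ht0 : 0 < t := by linarith [ht.1]
    have ht' : (t : ℂ) ≠ 0 := by exact_mod_cast ht0.ne'
    simp only [Pi.sub_apply]
    rw [sum_cn 0 ht0.le, hps, hE]
    simp only
    rw [mul_sub, (hasDerivAt_fl l ht0).deriv]
    field_simp
  rw [integral_add hE_int hfl_int, integral_const_mul,
    ← intervalIntegral.integral_of_le hX (f := fun t => deriv (fl l) t * E t),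
    ← intervalIntegral.integral_of_le hX (f := fun t => fl l t),
    integral_fl l hX] at hint
  have hEI : ‖∫ t in (1 : ℝ)..X, deriv (fl l) t * E t‖ ≤ 2 * C * |(l : ℝ)| * Real.sqrt X := by
    have h1 : ‖∫ t in (1 : ℝ)..X, deriv (fl l) t * E t‖ ≤
        ∫ t in (1 : ℝ)..X, C * |(l : ℝ)| * t ^ (-(1 / 2) : ℝ) := by
      apply intervalIntegral.norm_integral_le_of_norm_le hX
      · filter_upwards with t ht
        have ht0 : 0 < t := by linarith [ht.1]
        rw [norm_mul, norm_deriv_fl l ht0]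
        have h2 := hEb t ht.1.le
        calc |(l : ℝ)| / t * ‖E t‖ ≤ |(l : ℝ)| / t * (C * Real.sqrt t) := by gcongr
          _ = C * |(l : ℝ)| * (Real.sqrt t / t) := by ring
          _ = _ := by
              congr 1
              rw [Real.sqrt_eq_rpow, div_eq_mul_inv, ← Real.rpow_neg_one t, ← Real.rpow_add ht0]
              norm_num
      · apply ContinuousOn.intervalIntegrable
        apply ContinuousOn.mul continuousOn_const
        intro t ht
        rw [Set.uIcc_of_le hX] at ht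
        exact (Real.continuousAt_rpow_const _ _ (Or.inl (by linarith [ht.1]))).continuousWithinAt
    refine h1.trans ?_
    rw [intervalIntegral.integral_const_mul, integral_rpow (Or.inl (by norm_num))]
    rw [show (-(1 / 2 : ℝ) + 1) = 1 / 2 by norm_num, Real.one_rpow, ← Real.sqrt_eq_rpow]
    have h2 : 0 ≤ C * |(l : ℝ)| := by positivity
    have h3 : (Real.sqrt X - 1) / (1 / 2) ≤ 2 * Real.sqrt X := by
      rw [div_le_iff₀ (by norm_num)]
      linarith
    calc C * |(l : ℝ)| * ((Real.sqrt X - 1) / (1 / 2)) ≤ C * |(l : ℝ)| * (2 * Real.sqrt X) := by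
          gcongr
      _ = _ := by ring
  -- conclusion
  have hmain : ∑ z ∈ ball 0 1 X, chi (0, l) z -
      (Real.pi : ℂ) * (X : ℂ) ^ (1 - l * Complex.I) / (1 - l * Complex.I) =
      fl l X * E X - (∫ t in (1 : ℝ)..X, deriv (fl l) t * E t) -
        (l : ℂ) * Complex.I * Real.pi / (1 - l * Complex.I) := by
    have hEX : ∑ z ∈ ball 0 1 X, ps 0 z = E X + (Real.pi : ℂ) * X := by
      rw [hps, hE]
      ring
    rw [hsplit, hab, hint, sum_cn 0 hX0.le, sum_cn 0 zero_le_one, hEX, cpow_eq l hX0]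
    generalize (∫ t in (1 : ℝ)..X, deriv (fl l) t * E t) = J
    generalize E X = e
    generalize (∑ z ∈ ball 0 1 (1 : ℝ), ps 0 z) = e1
    have := one_sub_ne l
    field_simp
    ring
  rw [hmain]
  have hsq : 1 ≤ Real.sqrt X := Real.one_le_sqrt.2 hX
  have hl0 : 0 ≤ |(l : ℝ)| := abs_nonneg _
  have e1 : ‖fl l X * E X‖ ≤ C * Real.sqrt X := by
    rw [norm_mul, norm_fl, one_mul]
    exact hEb X hX
  have e3 : ‖(l : ℂ) * Complex.I * Real.pi / (1 - l * Complex.I)‖ ≤ 10 := by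
    obtain ⟨h1, h2⟩ := one_le_norm_one_sub l
    rw [norm_div, div_le_iff₀ (by linarith), norm_mul, norm_mul, Complex.norm_I, mul_one,
      Complex.norm_intCast, Complex.norm_real, Real.norm_of_nonneg Real.pi_pos.le]
    have := Real.pi_lt_four
    nlinarith [Real.pi_pos]
  calc _ ≤ ‖fl l X * E X‖ + ‖∫ t in (1 : ℝ)..X, deriv (fl l) t * E t‖ +
        ‖(l : ℂ) * Complex.I * Real.pi / (1 - l * Complex.I)‖ := by
        refine (norm_sub_le _ _).trans ?_
        gcongr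
        exact norm_sub_le _ _
    _ ≤ C * Real.sqrt X + 2 * C * |(l : ℝ)| * Real.sqrt X + 10 := by gcongr
    _ ≤ _ := by
        have h1 : 0 ≤ |(l : ℝ)| * Real.sqrt X := by positivity
        nlinarith [mul_nonneg hC.le h1]

end Pool.Agent.N767.MS
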